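import Mathlib

set_option autoImplicit false

namespace Pool.Agent.H50.RK

open Finset

/-- Greedy choice of NONZERO residue classes. -/
theorem greedy (P : Finset ℕ) (hP : ∀ p ∈ P, p.Prime ∧ 3 ≤ p) :
    ∀ R : Finset ℕ, ∃ b : ℕ → ℕ, (∀ p ∈ P, 1 ≤ b p ∧ b p < p) ∧
      ((R.filter (fun k => ∀ p ∈ P, ¬ k ≡ b p [MOD p])).card : ℝ) ≤
        ∑ k ∈ R, ∏ p ∈ P.filter (fun p => ¬ p ∣ k), (1 - 1 / ((p : ℝ) - 1)) := by
  classical
  induction P using Finset.induction_on with
  | empty => intro R; exact ⟨fun _ => 0, by simp, by simp⟩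
  | insert p P hpP ih =>
    intro R
    have ihP := ih (fun q hq => hP q (mem_insert_of_mem hq))
    obtain ⟨hp, hp3⟩ := hP p (mem_insert_self _ _)
    set w : ℕ → ℝ := fun k => ∏ q ∈ P.filter (fun q => ¬ q ∣ k), (1 - 1 / ((q : ℝ) - 1)) with hw
    have hw0 : ∀ k, 0 ≤ w k := by
      intro k
      apply prod_nonneg
      intro q hq
      have h1 := (hP q (mem_insert_of_mem (mem_filter.1 hq).1)).2
      have h2 : (3 : ℝ) ≤ q := by exact_mod_cast h1
      have h3 : 1 / ((q : ℝ) - 1) ≤ 1 := by
        rw [div_le_one (by linarith)]; linarith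
      linarith
    have hp3' : (3 : ℝ) ≤ p := by exact_mod_cast hp3
    -- averaging
    have havg : ∃ c ∈ Ioo 0 p, ∑ k ∈ R.filter (fun k => ¬ k ≡ c [MOD p]), w k ≤
        ∑ k ∈ R, ∏ q ∈ (insert p P).filter (fun q => ¬ q ∣ k), (1 - 1 / ((q : ℝ) - 1)) := by
      by_contra hcon
      push Not at hcon
      have hne : (Ioo 0 p).Nonempty := ⟨1, by rw [mem_Ioo]; omega⟩
      have hcard : (Ioo 0 p).card = p - 1 := by simp
      have h1 := sum_lt_sum_of_nonempty hne hcon
      rw [sum_const, hcard, nsmul_eq_mul] at h1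
      have h2 : ∑ c ∈ Ioo 0 p, ∑ k ∈ R.filter (fun k => ¬ k ≡ c [MOD p]), w k =
          ∑ k ∈ R, w k * ((Ioo 0 p).filter (fun c => ¬ k ≡ c [MOD p])).card := by
        simp_rw [sum_filter]
        rw [sum_comm]
        apply sum_congr rfl
        intro k _
        rw [← sum_filter, sum_const, nsmul_eq_mul, mul_comm]
      rw [h2, mul_sum] at h1
      apply lt_irrefl _ (lt_of_lt_of_le h1 _)
      apply sum_le_sum
      intro k _
      have hcast : ((p - 1 : ℕ) : ℝ) = (p : ℝ) - 1 := by
        rw [Nat.cast_sub (by omega)]; simp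
      by_cases hd : p ∣ k
      · have h3 : (insert p P).filter (fun q => ¬ q ∣ k) = P.filter (fun q => ¬ q ∣ k) := by
          rw [filter_insert, if_neg (by simpa using hd)]
        rw [h3]
        have h4 : (((Ioo 0 p).filter (fun c => ¬ k ≡ c [MOD p])).card : ℝ) ≤ ((p - 1 : ℕ) : ℝ) := by
          rw [← hcard]
          exact_mod_cast card_filter_le _ _
        calc w k * (((Ioo 0 p).filter (fun c => ¬ k ≡ c [MOD p])).card : ℝ)
            ≤ w k * ((p - 1 : ℕ) : ℝ) := mul_le_mul_of_nonneg_left h4 (hw0 k)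
          _ = _ := by rw [mul_comm]
      · have h3 : (insert p P).filter (fun q => ¬ q ∣ k) = insert p (P.filter (fun q => ¬ q ∣ k)) := by
          rw [filter_insert, if_pos hd]
        rw [h3, prod_insert (by simp [hpP])]
        have h4 : ((Ioo 0 p).filter (fun c => ¬ k ≡ c [MOD p])).card ≤ p - 2 := by
          have h5 : (Ioo 0 p).filter (fun c => ¬ k ≡ c [MOD p]) ⊆ (Ioo 0 p).erase (k % p) := by
            intro c hc
            rw [mem_filter] at hc
            rw [mem_erase]
            refine ⟨?_, hc.1⟩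
            rintro rfl
            exact hc.2 (Nat.mod_modEq k p).symm
          have h6 : k % p ∈ Ioo 0 p := by
            rw [mem_Ioo]
            exact ⟨Nat.pos_of_ne_zero fun h => hd (Nat.dvd_of_mod_eq_zero h), Nat.mod_lt _ hp.pos⟩
          have h7 := card_le_card h5
          rw [card_erase_of_mem h6, hcard] at h7
          omega
        have h5 : (((Ioo 0 p).filter (fun c => ¬ k ≡ c [MOD p])).card : ℝ) ≤ (p : ℝ) - 2 := by
          have : ((p - 2 : ℕ) : ℝ) = (p : ℝ) - 2 := by rw [Nat.cast_sub (by omega)]; simp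
          rw [← this]; exact_mod_cast h4
        rw [hcast]
        calc w k * (((Ioo 0 p).filter (fun c => ¬ k ≡ c [MOD p])).card : ℝ)
            ≤ w k * ((p : ℝ) - 2) := mul_le_mul_of_nonneg_left h5 (hw0 k)
          _ = _ := by
              have : (p : ℝ) - 1 ≠ 0 := by linarith
              simp only [hw]
              field_simp
              ring
    obtain ⟨c, hc, hle⟩ := havg
    obtain ⟨b, hb, hbc⟩ := ihP (R.filter (fun k => ¬ k ≡ c [MOD p]))
    refine ⟨Function.update b p c, ?_, ?_⟩
    · intro q hq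
      rcases mem_insert.1 hq with rfl | hq
      · rw [Function.update_self]
        rw [mem_Ioo] at hc; exact ⟨hc.1, hc.2⟩
      · have : q ≠ p := fun h => hpP (h ▸ hq)
        rw [Function.update_of_ne this]
        exact hb q hq
    · refine le_trans ?_ (hbc.trans hle)
      have h8 : R.filter (fun k => ∀ q ∈ insert p P, ¬ k ≡ Function.update b p c q [MOD q]) ⊆
          (R.filter (fun k => ¬ k ≡ c [MOD p])).filter (fun k => ∀ q ∈ P, ¬ k ≡ b q [MOD q]) := by
        intro k hk
        rw [mem_filter] at hk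
        rw [mem_filter, mem_filter]
        refine ⟨⟨hk.1, ?_⟩, ?_⟩
        · have := hk.2 p (mem_insert_self _ _)
          rwa [Function.update_self] at this
        · intro q hq
          have h9 : q ≠ p := fun h => hpP (h ▸ hq)
          have := hk.2 q (mem_insert_of_mem hq)
          rwa [Function.update_of_ne h9] at this
      exact_mod_cast card_le_card h8

end Pool.Agent.H50.RK
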